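import Pool.Agent.Helper39.YM.StFin

/-!
# Project YM, FIN: the assembly, from the limit inequality LIML to CGRAD
-/

set_option autoImplicit false
set_option maxHeartbeats 400000

noncomputable section

namespace Pool.Agent.Helper13.YM

open Finset Helper35.YM Pool.Agent.Helper92.YMF Pool.Agent.Helper39.YM

variable {n p : ℕ}

private theorem sq2 (x y c : ℝ) : (x + c * y) ^ 2 ≤ 2 * x ^ 2 + 2 * c ^ 2 * y ^ 2 := by
  nlinarith [sq_nonneg (x - c * y)]

private theorem nL_le (c : ℝ) (L L' : Fin p → Fin n → Fin n → Fin n → ℝ) :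
    nL (L + c • L') ≤ 2 * nL L + 2 * c ^ 2 * nL L' := by
  unfold nL
  simp only [mul_sum, ← sum_add_distrib, Pi.add_apply, Pi.smul_apply, smul_eq_mul]
  exact sum_le_sum fun a _ => sum_le_sum fun i _ => sum_le_sum fun j _ => sum_le_sum fun k _ =>
    sq2 _ _ _

private theorem nv_le (c : ℝ) (v v' : Fin p → Fin n → ℝ) :
    nv (v + c • v') ≤ 2 * nv v + 2 * c ^ 2 * nv v' := by
  unfold nv
  simp only [mul_sum, ← sum_add_distrib, Pi.add_apply, Pi.smul_apply, smul_eq_mul]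
  exact sum_le_sum fun a _ => sum_le_sum fun i _ => sq2 _ _ _

private theorem nt_le (c : ℝ) (t t' : Fin n → ℝ) :
    ∑ i, (t + c • t') i ^ 2 ≤ 2 * ∑ i, t i ^ 2 + 2 * c ^ 2 * ∑ i, t' i ^ 2 := by
  simp only [mul_sum, ← sum_add_distrib, Pi.add_apply, Pi.smul_apply, smul_eq_mul]
  exact sum_le_sum fun a _ => sq2 _ _ _

private theorem sB_nn (B : Fin p → Fin n → Fin n → ℝ) : 0 ≤ sB B :=
  sum_nonneg fun _ _ => sum_nonneg fun _ _ => sum_nonneg fun _ _ => sq_nonneg _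

private theorem nh_nn (m : Fin n → Fin n → ℝ) : 0 ≤ nh m :=
  sum_nonneg fun _ _ => sum_nonneg fun _ _ => sq_nonneg _

private theorem nL_nn (L : Fin p → Fin n → Fin n → Fin n → ℝ) : 0 ≤ nL L :=
  sum_nonneg fun _ _ => sum_nonneg fun _ _ => sum_nonneg fun _ _ => sum_nonneg fun _ _ =>
    sq_nonneg _

private theorem nv_nn (v : Fin p → Fin n → ℝ) : 0 ≤ nv v :=
  sum_nonneg fun _ _ => sum_nonneg fun _ _ => sq_nonneg _

private theorem nt_nn (t : Fin n → ℝ) : 0 ≤ ∑ i, t i ^ 2 := sum_nonneg fun _ _ => sq_nonneg _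

private theorem NN_le {a : ℝ} (ha : 0 ≤ a) (c : ℝ) (B : Fin p → Fin n → Fin n → ℝ)
    (L L' : Fin p → Fin n → Fin n → Fin n → ℝ) (v v' : Fin p → Fin n → ℝ) (t t' : Fin n → ℝ) :
    NN a B (L + c • L') (v + c • v') (t + c • t')
      ≤ 2 * NN a B L v t + 2 * c ^ 2 * NN a B L' v' t' := by
  have h1 := nL_le c L L'
  have h2 := mul_le_mul_of_nonneg_left (nv_le c v v') ha
  have h3 := mul_le_mul_of_nonneg_left (nt_le c t t') (sB_nn B)
  unfold NN
  linarith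

/-- `Qf` at the limit configuration and `G0`. -/
private theorem Qf_G0 (kap bet lam tau a : ℝ) (h m : Fin n → Fin n → ℝ)
    (B : Fin p → Fin n → Fin n → ℝ) (L : Fin p → Fin n → Fin n → Fin n → ℝ) (X : Fin n → ℝ)
    (hn : nh m = nh h - a) (hc : ∀ c i j, cmt h (B c) i j = cmt m (B c) i j)
    (hp : ∀ c, pB h B c = pB m B c) :
    Qf kap bet lam a h B L (bX B X) (mX m X) + 2 * a * ((kap * a + sB B) * nv (bX B X))
      = G0 kap bet lam tau a m B L X
        - (kap * a + sB B) * (lam * ((1 - tau) * (a * (sB B * ∑ i, X i ^ 2)))) := by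
  have hn' : nh h = nh m + a := by linarith
  have e1 : ∀ i, zf h B (bX B X) i = zf m B (bX B X) i := by
    intro i
    unfold zf
    simp only [hp]
  have e2 : ∀ i, f0v h B (bX B X) i = f0v m B (bX B X) i := by
    intro i
    unfold f0v
    simp only [hc]
  have e3 : ∀ b c j, e12 h B (bX B X) b c j = e12 m B (bX B X) b c j := by
    intro b c j
    unfold e12
    simp only [hc, hp]
  have e4 : ∑ i, lf B L i * (lf B L i + zf m B (bX B X) i - f0v m B (bX B X) i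
      + lam * sB B * mX m X i)
      = ∑ i, lf B L i ^ 2 + ∑ i, lf B L i * (zf m B (bX B X) i - f0v m B (bX B X) i)
        + lam * sB B * ∑ i, mX m X i * lf B L i := by
    rw [mul_sum, ← sum_add_distrib, ← sum_add_distrib]
    refine sum_congr rfl fun i _ => ?_
    ring
  unfold Qf G0
  simp only [e1, e2, e3]
  rw [e4, hn']
  simp only [sum_add_distrib]
  unfold nx
  ring

private theorem sq_le_e {e w : ℝ} (he : 0 ≤ e) (hw : 0 ≤ w) : e ^ 2 ≤ e * (e + w) := by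
  have := mul_nonneg he hw
  linarith

private theorem N1_real {a n V N P q2 Y : ℝ} (ha0 : 0 ≤ a) (ha1 : a ≤ 1 / 100) (han : a * n = 1)
    (hV : 0 ≤ V) (h1 : N ≤ 2 * P + 2 * 1 ^ 2 * (2 * a ^ 2 * (n + 1) * V)) (z1 : a * V ≤ q2)
    (z2 : Y ≤ q2) : N + a * V + Y ≤ 2 * P + 7 * q2 := by
  have h2 : 2 * a ^ 2 * (n + 1) * V = 2 * ((a * n) * (a * V)) + 2 * (a * (a * V)) := by ring
  rw [han] at h2
  have h3 : 0 ≤ a * V := mul_nonneg ha0 hV
  have h4 : a * (a * V) ≤ 1 / 100 * (a * V) := mul_le_mul_of_nonneg_right ha1 h3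
  rw [h2] at h1
  linarith

/-- the real inequality -/
private theorem fin_real {lam tau eta a s W P0 V0 q2 R2 E2 N1 Ne Q Q1 Q2 Q3 Qz G TR Ga : ℝ}
    (hs0 : 0 < s) (hs1 : s ≤ 1 / 10) (hsa : s ^ 2 = a)
    (hW0 : 0 ≤ W) (hW1 : W ≤ 1) (hP0 : 0 ≤ P0) (hq0 : 0 ≤ q2) (hR2 : 0 ≤ R2) (hRE : R2 ≤ E2)
    (hlam0 : 0 ≤ lam) (heta : 4000 * s ≤ eta) (htau : 4000 * s ≤ lam * tau)
    (hN1 : N1 ≤ 2 * P0 + 7 * q2) (hNe : Ne ≤ 6 * a * q2 + 30 * E2)
    (hGa : Ga = Q + W * (lam * ((1 - a) * q2)))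
    (hQ : Q = (1 - s) * Q1 + (1 - s⁻¹) * Q2 + s * Q3)
    (hQ2 : |Q2| ≤ 70 * (W * Ne)) (hQ3 : |Q3| ≤ 70 * (W * (2 * N1 + 2 * s⁻¹ ^ 2 * Ne)))
    (hRB : Qz + 2 * a * (W * V0) + W * TR - 110 * (s * (W * (P0 + q2))) ≤ Q1)
    (hTR : -(20 * (s * q2) + 20 * R2) ≤ TR)
    (hG : Qz + 2 * a * (W * V0) = G - W * (lam * ((1 - tau) * q2)))
    (hLIM : eta * (W * P0) ≤ G) :
    -((20 + 6300 * s⁻¹) * E2) ≤ Ga := by
  have hsi : 0 < s⁻¹ := inv_pos.2 hs0
  have hE2 : 0 ≤ E2 := hR2.trans hRE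
  have hss : s * s⁻¹ = 1 := mul_inv_cancel₀ hs0.ne'
  have hWP : 0 ≤ W * P0 := mul_nonneg hW0 hP0
  have hWq : 0 ≤ W * q2 := mul_nonneg hW0 hq0
  have hWR : 0 ≤ W * R2 := mul_nonneg hW0 hR2
  have hWE : 0 ≤ W * E2 := mul_nonneg hW0 hE2
  have has : a ≤ s := by rw [← hsa]; nlinarith
  have ha0 : 0 ≤ a := by rw [← hsa]; positivity
  -- bounds of the three parts
  have hNe' : W * Ne ≤ 6 * a * (W * q2) + 30 * (W * E2) := by
    have := mul_le_mul_of_nonneg_left hNe hW0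
    linarith
  have hN1' : W * N1 ≤ 2 * (W * P0) + 7 * (W * q2) := by
    have := mul_le_mul_of_nonneg_left hN1 hW0
    linarith
  have hsi1 : 1 ≤ s⁻¹ := by
    rw [one_le_inv₀ hs0]
    linarith
  have b2 : -(70 * (s⁻¹ * (W * Ne))) ≤ (1 - s⁻¹) * Q2 := by
    have h1 : |(1 - s⁻¹) * Q2| ≤ s⁻¹ * (70 * (W * Ne)) := by
      rw [abs_mul]
      have h2 : |1 - s⁻¹| ≤ s⁻¹ := by
        rw [abs_le]
        constructor <;> linarith
      exact mul_le_mul h2 hQ2 (abs_nonneg _) hsi.le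
    have := (abs_le.1 h1).1
    linarith
  have b3 : -(140 * (s * (W * N1)) + 140 * (s⁻¹ * (W * Ne))) ≤ s * Q3 := by
    have h1 := (abs_le.1 hQ3).1
    have h2 := mul_le_mul_of_nonneg_left h1 hs0.le
    have h3 : s * -(70 * (W * (2 * N1 + 2 * s⁻¹ ^ 2 * Ne)))
        = -(140 * (s * (W * N1)) + 140 * ((s * s⁻¹) * (s⁻¹ * (W * Ne)))) := by ring
    rw [h3, hss] at h2
    linarith
  have b4 : s⁻¹ * (W * Ne) ≤ 6 * (s * (W * q2)) + 30 * (s⁻¹ * (W * E2)) := by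
    have h1 := mul_le_mul_of_nonneg_left hNe' hsi.le
    have h2 : s⁻¹ * (6 * a * (W * q2) + 30 * (W * E2))
        = 6 * ((s * s⁻¹) * (s * (W * q2))) + 30 * (s⁻¹ * (W * E2)) := by
      rw [← hsa]; ring
    rw [h2, hss] at h1
    linarith
  have b5 : s * (W * N1) ≤ 2 * (s * (W * P0)) + 7 * (s * (W * q2)) := by
    have h1 := mul_le_mul_of_nonneg_left hN1' hs0.le
    linarith
  -- the main part
  have c1 : eta * (W * P0) + lam * (tau - 1) * (W * q2) - 20 * (s * (W * q2)) - 20 * (W * R2)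
      - 110 * (s * (W * P0)) - 110 * (s * (W * q2)) ≤ Q1 := by
    have h1 := mul_le_mul_of_nonneg_left hTR hW0
    linarith
  have hsWP : 0 ≤ s * (W * P0) := by positivity
  have hsWq : 0 ≤ s * (W * q2) := by positivity
  have c2 : (1 - s) * (eta * (W * P0) + lam * (tau - 1) * (W * q2) - 20 * (s * (W * q2))
      - 20 * (W * R2) - 110 * (s * (W * P0)) - 110 * (s * (W * q2))) ≤ (1 - s) * Q1 :=
    mul_le_mul_of_nonneg_left c1 (by linarith)
  have c3 : (1 - s) * (eta * (W * P0)) ≥ (9 / 10) * (eta * (W * P0)) := by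
    have : 0 ≤ eta * (W * P0) := mul_nonneg (by linarith) hWP
    exact mul_le_mul_of_nonneg_right (by linarith) this
  have c4 : (1 - s) * (lam * (tau - 1) * (W * q2)) + W * (lam * ((1 - a) * q2))
      ≥ (9 / 10) * (lam * tau * (W * q2)) - s * (W * q2) := by
    have h1 : 0 ≤ lam * tau * (W * q2) := mul_nonneg (by linarith) hWq
    have h2 : 0 ≤ lam * (W * q2) := mul_nonneg hlam0 hWq
    have h3 : (1 - s) * (lam * (tau - 1) * (W * q2)) + W * (lam * ((1 - a) * q2))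
        = (1 - s) * (lam * tau * (W * q2)) + s * (lam * (W * q2)) - a * (lam * (W * q2)) := by ring
    rw [h3]
    have h4 : a * (lam * (W * q2)) ≤ s * (lam * (W * q2)) :=
      mul_le_mul_of_nonneg_right has h2
    have h5 : (9 / 10 : ℝ) * (lam * tau * (W * q2)) ≤ (1 - s) * (lam * tau * (W * q2)) :=
      mul_le_mul_of_nonneg_right (by linarith) h1
    have h6 : 0 ≤ s * (W * q2) := mul_nonneg hs0.le hWq
    linarith
  have c5 : (4000 * s) * (W * P0) ≤ eta * (W * P0) := mul_le_mul_of_nonneg_right heta hWP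
  have c6 : (4000 * s) * (W * q2) ≤ lam * tau * (W * q2) := mul_le_mul_of_nonneg_right htau hWq
  have c7 : W * E2 ≤ E2 := mul_le_of_le_one_left hE2 hW1
  have c8 : W * R2 ≤ E2 := (mul_le_of_le_one_left hR2 hW1).trans hRE
  have c9 : s⁻¹ * (W * E2) ≤ s⁻¹ * E2 := mul_le_mul_of_nonneg_left c7 hsi.le
  have c10 : 0 ≤ s * (W * R2) := by positivity
  have c11 : 0 ≤ s * (s * (W * q2)) := by positivity
  have c12 : 0 ≤ s * (s * (W * P0)) := by positivity
  rw [hGa, hQ]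
  have expand : (1 - s) * (eta * (W * P0) + lam * (tau - 1) * (W * q2) - 20 * (s * (W * q2))
      - 20 * (W * R2) - 110 * (s * (W * P0)) - 110 * (s * (W * q2)))
      = (1 - s) * (eta * (W * P0)) + (1 - s) * (lam * (tau - 1) * (W * q2))
        - 130 * (s * (W * q2)) + 130 * (s * (s * (W * q2))) - 20 * (W * R2)
        + 20 * (s * (W * R2)) - 110 * (s * (W * P0)) + 110 * (s * (s * (W * P0))) := by ring
  rw [expand] at c2
  linarith

theorem hFIN (hGQ : StGQ) (hQF : StQF) (hBD : StBD) (hR1 : StR1) (hRB : StRB) (hDC : StDC)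
    (hZB : StZB) : StFIN := by
  intro kap bet lam tau eta hk0 hk1 hb0 hb1 hl0 hl1 ht1 he1 hL n hn heta htau hn1 hn2
  have hn0 : (100 : ℝ) ≤ (n : ℝ) := by exact_mod_cast hn
  have hnp : (0 : ℝ) < (n : ℝ) := by linarith
  set a : ℝ := 1 / (n : ℝ) with ha
  have ha0 : 0 < a := by rw [ha]; positivity
  have han : a * (n : ℝ) = 1 := by rw [ha]; field_simp
  set s : ℝ := Real.sqrt a with hs
  have hs0 : 0 < s := Real.sqrt_pos.2 ha0
  have hsa : s ^ 2 = a := Real.sq_sqrt ha0.le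
  have hs1 : s ≤ 1 / 10 := by
    have h1 : a ≤ (1 / 10) ^ 2 := by
      rw [ha, div_le_iff₀ hnp]
      linarith
    have h2 : s ^ 2 ≤ (1 / 10) ^ 2 := by rw [hsa]; exact h1
    exact (pow_le_pow_iff_left₀ hs0.le (by norm_num) two_ne_zero).1 h2
  have key : ∀ x : ℝ, 0 < x → (4000 : ℝ) ^ 2 ≤ n * x ^ 2 → 4000 * s ≤ x := by
    intro x hx h
    have h1 : (4000 * s) ^ 2 ≤ x ^ 2 := by
      have h2 : (4000 * s) ^ 2 = a * 4000 ^ 2 := by rw [mul_pow, hsa]; ring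
      rw [h2]
      calc a * 4000 ^ 2 ≤ a * (n * x ^ 2) := mul_le_mul_of_nonneg_left h ha0.le
        _ = (a * n) * x ^ 2 := by ring
        _ = x ^ 2 := by rw [han, one_mul]
    exact (pow_le_pow_iff_left₀ (by positivity) hx.le two_ne_zero).1 h1
  have hlt : 0 < lam * tau := by
    rcases hl0.eq_or_lt with h | h
    · rw [← h] at hn2
      norm_num at hn2
    · positivity
  have hseta := key eta heta hn1
  have hslt := key (lam * tau) hlt hn2
  refine ⟨20 + 6300 * s⁻¹, by positivity, ?_⟩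
  intro p h B T y X e w hsym hBs htr hBt hnorm hT he hw hE hw2
  have hnorm' : nh h + sB B ≤ 2 * a := by
    rw [ha]
    calc nh h + sB B ≤ 2 / (n : ℝ) := hnorm
      _ = 2 * (1 / (n : ℝ)) := by ring
  obtain ⟨m, T0, r, rho, hms, hT0, hnm, hr, hrho, hcm, hpm, hv, hy, hLd, htrace⟩ :=
    hDC n p a h B T y X hsym hBs htr hBt hT han
  set L0 := Lf m B T0 (bX B X) (mX m X) with hL0
  set E := r1 a r + fun c i j k => -(m j k * r c i) - (a * X i + rho i) * B c j k with hEdef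
  set W : ℝ := kap * a + sB B with hW
  have hmu : nh m + sB B ≤ a := by linarith
  have hS0 := sB_nn B
  have hSa : sB B ≤ a := by linarith [nh_nn m]
  have hW0 : 0 ≤ W := by rw [hW]; positivity
  have ha1 : a ≤ 1 / 100 := by
    rw [ha, div_le_iff₀ hnp]
    linarith
  have hW1 : W ≤ 1 := by
    rw [hW]
    nlinarith
  set q2 : ℝ := a * (sB B * ∑ i, X i ^ 2) with hq2
  have hq0 : 0 ≤ q2 := by
    rw [hq2]
    exact mul_nonneg ha0.le (mul_nonneg hS0 (nt_nn X))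
  obtain ⟨z1, z2, z3, z4⟩ := hZB n p a s m B X rho r hms hBs han hs0.le (by linarith) hsa hmu
  rw [← hq2] at z1 z2 z3 z4
  have hL0s : ∀ c i j k, L0 c i j k = L0 c i k j := by
    intro c i j k
    rw [hL0]
    unfold Lf
    rw [hT0.2 c i j k, hms j k, hBs c j k]
  have hqq : (Real.sqrt q2) ^ 2 = q2 := Real.sq_sqrt hq0
  have hrb := hRB n p kap bet lam a s (Real.sqrt q2) h B L0 (bX B X) (mX m X) hBs hL0s hk0.le
    hb0 hb1 hl0 hl1 han hs0.le (by linarith) hsa hnorm' (by rw [hqq]; exact z1)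
    (by rw [hqq]; exact z2)
  rw [hqq] at hrb
  simp only [htrace] at hrb
  obtain ⟨r1a, -, -, -, -, -, -⟩ := hR1 n p a B L0 (bX B X) hBs hL0s
  have hN1 : NN a B (L0 + r1 a (bX B X)) (bX B X) (mX m X) ≤ 2 * nL L0 + 7 * q2 := by
    have h1 := nL_le 1 L0 (r1 a (bX B X))
    rw [one_smul, r1a] at h1
    exact N1_real ha0.le ha1 han (nv_nn _) h1 z1 z2
  have hqf := hQF n p kap bet lam a s h B (L0 + r1 a (bX B X)) E (bX B X) r (mX m X) rho hs0.ne'
  have hb2 := hBD n p kap bet lam a h B E r rho hk0.le hb0 hb1 hl0 hl1 ha0.le hnorm'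
  have hb3 := hBD n p kap bet lam a h B (L0 + r1 a (bX B X) + s⁻¹ • E) (bX B X + s⁻¹ • r)
    (mX m X + s⁻¹ • rho) hk0.le hb0 hb1 hl0 hl1 ha0.le hnorm'
  have hb3' := hb3.trans (mul_le_mul_of_nonneg_left (mul_le_mul_of_nonneg_left
    (NN_le ha0.le s⁻¹ B (L0 + r1 a (bX B X)) E (bX B X) r (mX m X) rho) hW0)
    (by norm_num : (0 : ℝ) ≤ 70))
  have hga := hGQ n p kap bet lam h B (Lf h B T (vT T) y) (vT T) y X
  rw [← ha, hLd, hy, hv] at hga
  rw [hLd, hv, hga]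
  have hlim := hL n p m B T0 L0 X a hms hBs hT0 hmu hL0
  have hG := Qf_G0 kap bet lam tau a h m B L0 X hnm hcm hpm
  have hE2 : nv r + ∑ i, rho i ^ 2 ≤ e ^ 2 := by
    refine le_trans (le_of_eq ?_) hE
    unfold nv
    simp only [hr, hrho]
  have hmain := fin_real (tau := tau) (Ga := Qf kap bet lam a h B
      (L0 + r1 a (bX B X) + E) (bX B X + r) (mX m X + rho) +
      W * (lam * (sB B * ((a - a ^ 2) * ∑ i, X i ^ 2)))) hs0 hs1 hsa hW0 hW1 (nL_nn L0) hq0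
      (nv_nn r) (le_add_of_nonneg_right (nt_nn rho)) hl0 hseta hslt hN1 z4 (by rw [hq2]; ring) hqf hb2 hb3' hrb z3 hG hlim
  have hC : (0 : ℝ) ≤ 20 + 6300 * s⁻¹ := by positivity
  have hfin : (20 + 6300 * s⁻¹) * (nv r + ∑ i, rho i ^ 2) ≤ (20 + 6300 * s⁻¹) * (e * (e + w)) :=
    mul_le_mul_of_nonneg_left (hE2.trans (sq_le_e he hw)) hC
  exact (neg_le_neg hfin).trans hmain

end Pool.Agent.Helper13.YM
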